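import Pool.Agent.Y498.HS.Fam

/-! # Half-space rigidity fails in every dimension `n ≥ 2`, for every nonlinearity -/

set_option autoImplicit false

open MeasureTheory
open scoped ContDiff Laplacian

namespace Pool.Agent.Results.MP_66e6f4_an.AllDimensions

/-- `u` is one-dimensional: a function of one coordinate after a rigid motion. -/
def OneDim (m : ℕ) (u : EuclideanSpace ℝ (Fin (m + 2)) → ℝ) : Prop :=
  ∃ (g : EuclideanSpace ℝ (Fin (m + 2)) ≃ᵃⁱ[ℝ] EuclideanSpace ℝ (Fin (m + 2))) (V : ℝ → ℝ),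
    ∀ x, u x = V ((g x) 0)

/-- `u` and `v` are congruent: they agree after a rigid motion. -/
def Congruent (m : ℕ) (u v : EuclideanSpace ℝ (Fin (m + 2)) → ℝ) : Prop :=
  ∃ g : EuclideanSpace ℝ (Fin (m + 2)) ≃ᵃⁱ[ℝ] EuclideanSpace ℝ (Fin (m + 2)), ∀ x, u x = v (g x)

/-- `u` is a smooth solution of `Δ u = f(u)`. -/
def Solves (m : ℕ) (f : ℝ → ℝ) (u : EuclideanSpace ℝ (Fin (m + 2)) → ℝ) : Prop :=
  ContDiff ℝ ∞ u ∧ ∀ x, (Δ u) x = f (u x)

/-- `u` has no critical points and its positivity set is nonempty and contained in the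
half-space `x₁ > 0`. -/
def HalfSpaceNoncritical (m : ℕ) (u : EuclideanSpace ℝ (Fin (m + 2)) → ℝ) : Prop :=
  (∀ x, fderiv ℝ u x ≠ 0) ∧ (∀ x, 0 < u x → 0 < x 0) ∧ ∃ x, 0 < u x

/-- `u` tends to `-B` exponentially with rate `l` as `x₁ → -∞`. -/
def Decays (m : ℕ) (B l : ℝ) (u : EuclideanSpace ℝ (Fin (m + 2)) → ℝ) : Prop :=
  ∀ x, |u x + B| ≤ 3 / 2 * Real.exp (l * x 0)

/-- `u` depends only on the first two coordinates and is `2π/l`-periodic in the second one. -/
def TwoVarPeriodic (m : ℕ) (l : ℝ) (u : EuclideanSpace ℝ (Fin (m + 2)) → ℝ) : Prop :=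
  (∀ x y : EuclideanSpace ℝ (Fin (m + 2)), x 0 = y 0 → x 1 = y 1 → u x = u y) ∧
    ∀ x : EuclideanSpace ℝ (Fin (m + 2)), u (x + (2 * Real.pi / l) • EuclideanSpace.single 1 1) = u x

/-- Let `n = m + 2 ≥ 2` and let `f` be smooth with compact support (of any sign). There is a family
`u B`, `B ≥ B0`, of smooth solutions of `Δ u = f(u)` in the space of dimension `n` without critical
points, whose positivity sets are nonempty and contained in the half-space `x₁ > 0`, which are not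
functions of one coordinate after any rigid motion, which depend only on the first two coordinates,
are periodic in the second one and tend exponentially to `-B` as `x₁ → -∞`; two different members
of the family are not congruent. -/
theorem result (m : ℕ) (f : ℝ → ℝ) (hf : ContDiff ℝ ∞ f) (hs : HasCompactSupport f) :
    ∃ (B0 : ℝ) (u : ℝ → EuclideanSpace ℝ (Fin (m + 2)) → ℝ) (l : ℝ → ℝ),
      (∀ B, B0 ≤ B → 0 < l B ∧ Solves m f (u B) ∧ HalfSpaceNoncritical m (u B) ∧
        ¬ OneDim m (u B) ∧ Decays m B (l B) (u B) ∧ TwoVarPeriodic m (l B) (u B)) ∧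
      ∀ B B', B0 ≤ B → B0 ≤ B' → B ≠ B' → ¬ Congruent m (u B) (u B') := by
  obtain ⟨B0, u, l, h, h'⟩ := Pool.Agent.Y498.HS.main4 m f hf hs
  refine ⟨B0, u, l, fun B hB => ?_, h'⟩
  obtain ⟨h1, h2, h3, h4, h5, h6, h7, h8, h9, h10⟩ := h B hB
  exact ⟨h1, ⟨h2, h3⟩, ⟨h4, h5, h6⟩, h7, h8, h9, h10⟩

end Pool.Agent.Results.MP_66e6f4_an.AllDimensions
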